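import Mathlib
import Pool.Agent.H143R3.BT.Stmts

set_option autoImplicit false

namespace Pool.Agent.H612K.BT

open Pool.Agent.H143R3.BT
open MeasureTheory ProbabilityTheory Filter Topology
open scoped ENNReal NNReal

universe u v

theorem preBM {Ω : Type u} [MeasurableSpace Ω] {P : Measure Ω} {X : ℝ≥0 → Ω → ℝ}
    (hX : IsBM P X) : IsPreBrownianReal X P := by
  refine HasIndepIncrements.isPreBrownianReal_of_hasLaw (fun t => ?_) hX.indep
  refine ⟨(hX.meas t).aemeasurable, ?_⟩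
  have h1 := hX.law 0 t (zero_le)
  rw [tsub_zero] at h1
  rw [← h1]
  refine Measure.map_congr ?_
  filter_upwards [hX.zero] with ω hω
  rw [hω, sub_zero]

theorem path_meas {Ω : Type u} [MeasurableSpace Ω] {P : Measure Ω} {X : ℝ≥0 → Ω → ℝ}
    (hX : IsBM P X) : Measurable (fun (ω : Ω) (t : ℝ≥0) => X t ω) :=
  measurable_pi_iff.mpr hX.meas

theorem projLim {Ω : Type u} [MeasurableSpace Ω] {P : Measure Ω} {X : ℝ≥0 → Ω → ℝ}
    (hX : IsBM P X) : IsProjectiveLimit (P.map (fun (ω : Ω) (t : ℝ≥0) => X t ω))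
      (fun I : Finset ℝ≥0 => BrownianReal.projectiveFamily I) := by
  intro I
  rw [Measure.map_map (Finset.measurable_restrict I) (path_meas hX)]
  exact ((preBM hX).hasLaw I).map_eq

theorem law_eq {Ω : Type u} [MeasurableSpace Ω] {P : Measure Ω} {X : ℝ≥0 → Ω → ℝ}
    {Ω' : Type v} [MeasurableSpace Ω'] {P' : Measure Ω'} {W : ℝ≥0 → Ω' → ℝ}
    (hX : IsBM P X) (hW : IsBM P' W) :
    P.map (fun (ω : Ω) (t : ℝ≥0) => X t ω) = P'.map (fun (ω : Ω') (t : ℝ≥0) => W t ω) :=
  (projLim hX).unique (projLim hW)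

section

variable {Ω : Type u} [MeasurableSpace Ω] {P : Measure Ω} [IsProbabilityMeasure P] {lam : ℝ≥0}
    {X : ℝ≥0 → Ω → ℝ} {x : ℕ → Ω → ℝ} {Y : ℕ → ℝ≥0 → Ω → ℝ}
    {Ω' : Type v} [MeasurableSpace Ω'] {P' : Measure Ω'} [IsProbabilityMeasure P']
    {W : ℝ≥0 → Ω' → ℝ}

theorem joint_law (hM : TrapModel P lam X x Y) (hW : IsBM P' W) :
    P.map (fun ω => ((fun t => X t ω), ((fun i => x i ω), (fun i t => Y i t ω)))) =
      (P.map (fun ω t => X t ω)).prod ((P.map (fun ω i => x i ω)).prod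
        (Measure.infinitePi (fun _ : ℕ => P'.map (fun ω t => W t ω)))) := by
  have hX := path_meas hM.particle
  have hY : ∀ i, Measurable (fun (ω : Ω) (t : ℝ≥0) => Y i t ω) := fun i => path_meas (hM.traps i)
  have hxm : Measurable (fun ω i => x i ω) := measurable_pi_iff.mpr hM.points.measurable
  have hYm : Measurable (fun (ω : Ω) (i : ℕ) (t : ℝ≥0) => Y i t ω) := measurable_pi_iff.mpr hY
  have hYlaw : P.map (fun (ω : Ω) (i : ℕ) (t : ℝ≥0) => Y i t ω) =
      Measure.infinitePi (fun _ : ℕ => P'.map (fun ω t => W t ω)) := by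
    rw [hM.indep_traps.map_fun_eq_infinitePi_map hY]
    congr 1
    ext1 i
    exact law_eq (hM.traps i) hW
  have hxY : P.map (fun ω => ((fun i => x i ω), (fun i t => Y i t ω))) =
      (P.map (fun ω i => x i ω)).prod
        (Measure.infinitePi (fun _ : ℕ => P'.map (fun ω t => W t ω))) := by
    rw [(indepFun_iff_map_prod_eq_prod_map_map hxm.aemeasurable hYm.aemeasurable).mp
      hM.indep_points_traps, hYlaw]
  rw [(indepFun_iff_map_prod_eq_prod_map_map hX.aemeasurable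
    (hxm.prodMk hYm).aemeasurable).mp hM.indep_particle, hxY]

/-- the void event -/
def voidS (A : Set (ℝ≥0 → ℝ)) (B : Set ((ℝ≥0 → ℝ) × ℝ × (ℝ≥0 → ℝ))) :
    Set ((ℝ≥0 → ℝ) × ((ℕ → ℝ) × (ℕ → ℝ≥0 → ℝ))) :=
  {q | q.1 ∈ A ∧ ∀ i, (q.1, q.2.1 i, q.2.2 i) ∉ B}

theorem voidS_meas {A : Set (ℝ≥0 → ℝ)} (hA : MeasurableSet A)
    {B : Set ((ℝ≥0 → ℝ) × ℝ × (ℝ≥0 → ℝ))} (hB : MeasurableSet B) :
    MeasurableSet (voidS A B) := by
  have h1 : voidS A B = (Prod.fst ⁻¹' A) ∩ ⋂ i : ℕ, ((fun q : (ℝ≥0 → ℝ) ×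
      ((ℕ → ℝ) × (ℕ → ℝ≥0 → ℝ)) => (q.1, q.2.1 i, q.2.2 i)) ⁻¹' B)ᶜ := by
    ext q
    simp [voidS]
  rw [h1]
  refine (measurable_fst hA).inter (MeasurableSet.iInter fun i => MeasurableSet.compl ?_)
  refine hB.preimage ?_
  exact measurable_fst.prodMk (((measurable_pi_apply i).comp (measurable_fst.comp
    measurable_snd)).prodMk ((measurable_pi_apply i).comp (measurable_snd.comp measurable_snd)))

theorem section_eq (ν : Measure (ℝ≥0 → ℝ)) [IsProbabilityMeasure ν]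
    {B : Set ((ℝ≥0 → ℝ) × ℝ × (ℝ≥0 → ℝ))} (hB : MeasurableSet B) (c : ℝ≥0 → ℝ) (z : ℕ → ℝ) :
    (Measure.infinitePi (fun _ : ℕ => ν)) {y | ∀ i, (c, z i, y i) ∉ B} =
      ⨅ m : ℕ, ∏ i ∈ Finset.range m, (1 - ν {w | (c, z i, w) ∈ B}) := by
  have hBi : ∀ i, MeasurableSet {w : ℝ≥0 → ℝ | (c, z i, w) ∈ B} := fun i => by
    have h1 : Measurable (fun w : ℝ≥0 → ℝ => (c, z i, w)) :=
      measurable_const.prodMk (measurable_const.prodMk measurable_id)
    exact h1 hB
  set S : ℕ → Set (ℕ → ℝ≥0 → ℝ) := fun m => Set.pi (Finset.range m : Set ℕ)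
      (fun i => {w : ℝ≥0 → ℝ | (c, z i, w) ∈ B}ᶜ) with hS
  have hSm : ∀ m, MeasurableSet (S m) := fun m =>
    MeasurableSet.pi (Finset.countable_toSet _) fun i _ => (hBi i).compl
  have h1 : {y : ℕ → ℝ≥0 → ℝ | ∀ i, (c, z i, y i) ∉ B} = ⋂ m, S m := by
    ext y
    simp only [Set.mem_ofPred_eq, Set.mem_iInter, hS, Set.mem_pi, Finset.coe_range, Set.mem_Iio,
      Set.mem_compl_iff]
    exact ⟨fun h m i _ => h i, fun h i => h (i + 1) i (Nat.lt_succ_self i)⟩
  have h2 : Antitone S := by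
    intro m m' hmm y hy i hi
    exact hy i (by
      simp only [Finset.coe_range, Set.mem_Iio] at hi ⊢
      omega)
  rw [h1, h2.measure_iInter (fun m => (hSm m).nullMeasurableSet) ⟨0, measure_ne_top _ _⟩]
  congr 1
  funext m
  rw [hS]
  simp only
  rw [Measure.infinitePi_pi _ (fun i _ => (hBi i).compl)]
  refine Finset.prod_congr rfl fun i _ => ?_
  rw [prob_compl_eq_one_sub (hBi i)]

end

theorem taskV2 : TaskV2.{u, v} := by
  intro hV1 Ω _ P _ lam X x Y Ω' _ P' _ W hM hW B hB hfin A hA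
  have hX := path_meas hM.particle
  have hWm := path_meas hW
  have hY : ∀ i, Measurable (fun (ω : Ω) (t : ℝ≥0) => Y i t ω) := fun i => path_meas (hM.traps i)
  have hxm : Measurable (fun ω i => x i ω) := measurable_pi_iff.mpr hM.points.measurable
  have hYm : Measurable (fun (ω : Ω) (i : ℕ) (t : ℝ≥0) => Y i t ω) := measurable_pi_iff.mpr hY
  have hgm : Measurable (fun ω => ((fun t => X t ω), ((fun i => x i ω), (fun i t => Y i t ω)))) :=
    hX.prodMk (hxm.prodMk hYm)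
  set ν := P'.map (fun ω t => W t ω) with hν
  have hνp : IsProbabilityMeasure ν := Measure.isProbabilityMeasure_map hWm.aemeasurable
  have hxp : IsProbabilityMeasure (P.map (fun ω i => x i ω)) :=
    Measure.isProbabilityMeasure_map hxm.aemeasurable
  have hSm := voidS_meas hA hB
  have e1 : ({ω | (fun u => X u ω) ∈ A} ∩
        {ω | ∀ i, ((fun u => X u ω), x i ω, (fun u => Y i u ω)) ∉ B}) =
      (fun ω => ((fun t => X t ω), ((fun i => x i ω), (fun i t => Y i t ω)))) ⁻¹' (voidS A B) := rfl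
  have hjl := joint_law hM hW
  rw [← hν] at hjl
  rw [e1, ← Measure.map_apply hgm hSm, hjl, Measure.prod_apply hSm,
    lintegral_map (measurable_measure_prodMk_left hSm) hX]
  -- the hitting probabilities
  have hpm : Measurable (fun q : (ℝ≥0 → ℝ) × ℝ => ν {w | (q.1, q.2, w) ∈ B}) := by
    have h1 : MeasurableSet {q : ((ℝ≥0 → ℝ) × ℝ) × (ℝ≥0 → ℝ) | (q.1.1, q.1.2, q.2) ∈ B} := by
      have h2 : Measurable (fun q : ((ℝ≥0 → ℝ) × ℝ) × (ℝ≥0 → ℝ) => (q.1.1, q.1.2, q.2)) :=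
        (measurable_fst.comp measurable_fst).prodMk
          ((measurable_snd.comp measurable_fst).prodMk measurable_snd)
      exact h2 hB
    exact measurable_measure_prodMk_left h1
  have hpW : ∀ (c : ℝ≥0 → ℝ) (z : ℝ), ν {w | (c, z, w) ∈ B} =
      P' {ω' | (c, z, (fun u => W u ω')) ∈ B} := by
    intro c z
    have h1 : Measurable (fun w : ℝ≥0 → ℝ => (c, z, w)) :=
      measurable_const.prodMk (measurable_const.prodMk measurable_id)
    have hBs : MeasurableSet {w : ℝ≥0 → ℝ | (c, z, w) ∈ B} := h1 hB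
    rw [hν, Measure.map_apply hWm hBs]
    rfl
  have hAm : MeasurableSet {ω | (fun u => X u ω) ∈ A} := hX hA
  rw [← lintegral_indicator hAm]
  refine lintegral_congr_ae ?_
  filter_upwards [hfin] with ω hω
  by_cases hA' : (fun u => X u ω) ∈ A
  · rw [Set.indicator_of_mem (show ω ∈ {ω | (fun u => X u ω) ∈ A} from hA')]
    set c : ℝ≥0 → ℝ := fun u => X u ω with hc
    have hSc : MeasurableSet (Prod.mk c ⁻¹' (voidS A B)) := measurable_prodMk_left hSm
    rw [Measure.prod_apply hSc]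
    have e2 : ∀ z : ℕ → ℝ, (Measure.infinitePi (fun _ : ℕ => ν))
        (Prod.mk z ⁻¹' (Prod.mk c ⁻¹' (voidS A B))) =
        ⨅ m : ℕ, ∏ i ∈ Finset.range m, (1 - ν {w | (c, z i, w) ∈ B}) := by
      intro z
      rw [← section_eq ν hB c z]
      congr 1
      ext y
      simp only [voidS, Set.mem_preimage, Set.mem_ofPred_eq]
      exact ⟨fun h => h.2, fun h => ⟨hA', h⟩⟩
    rw [lintegral_congr e2]
    have hpc : Measurable (fun z : ℝ => ν {w | (c, z, w) ∈ B}) :=
      hpm.comp (measurable_const.prodMk measurable_id)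
    have hm2 : Measurable (fun z : ℕ → ℝ =>
        ⨅ m : ℕ, ∏ i ∈ Finset.range m, (1 - ν {w | (c, z i, w) ∈ B})) := by
      refine Measurable.iInf fun m => ?_
      refine Finset.measurable_fun_prod _ fun i _ => ?_
      exact Measurable.sub measurable_const (hpc.comp (measurable_pi_apply i))
    rw [lintegral_map hm2 hxm]
    have e3 : ∫⁻ z : ℝ, ν {w | (c, z, w) ∈ B} = ∫⁻ z : ℝ, P' {ω' | (c, z, (fun u => W u ω')) ∈ B} :=
      lintegral_congr fun z => hpW c z
    have h5 := hV1 Ω P lam x hM.points (fun z => ν {w | (c, z, w) ∈ B}) hpc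
      (fun z => prob_le_one) (by rw [e3]; exact hω)
    rw [e3] at h5
    exact h5
  · rw [Set.indicator_of_notMem (show ω ∉ {ω | (fun u => X u ω) ∈ A} from hA')]
    have e4 : Prod.mk (fun u => X u ω) ⁻¹' (voidS A B) = ∅ := by
      ext y
      simp only [voidS, Set.mem_preimage, Set.mem_ofPred_eq, Set.mem_empty_iff_false, iff_false]
      exact fun h => hA' h.1
    rw [e4, measure_empty]

end Pool.Agent.H612K.BT
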